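import Pool.Agent.K9h50.FS.C

/-!
# Adjacencies from members without FPP to members with FPP along maximal chains of order relations (MP_eb30e1, Q2)

For `n ≥ 2`, the largest number of adjacencies `≤_i ≺ ≤_{i+1}` of a maximal chain of order
relations on `[n]` for which `≤_i` lacks the fixed point property and `≤_{i+1}` has it is
`⌊(n-2)²/4⌋ + 1`; for `n ≤ 1` it is `0`.

The notions `IsOrder`, `FPP`, `IsMaximalChain` are those of
`Pool.Agent.Results.MP_eb30e1_co.FewestMembers`.
-/

namespace Pool.Agent.Results.MP_eb30e1_co.MostAdjacencies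

open Finset Pool.Agent.Results.MP_eb30e1_co.FewestMembers

open Classical in
/-- The number of adjacencies `r i ≺ r (i+1)` for which `r i` lacks the fixed point property and
`r (i+1)` has it. -/
noncomputable def countAdjacencies {α : Type} (T : ℕ) (r : ℕ → α → α → Prop) : ℕ :=
  ((range T).filter (fun i => ¬ FPP (r i) ∧ FPP (r (i + 1)))).card

/-- **Result.** For every `n`, the largest number of adjacencies `≤_i ≺ ≤_{i+1}` such that
`([n], ≤_i)` lacks the fixed point property and `([n], ≤_{i+1})` has it, over all maximal chains of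
order relations on an `n`-element set, is `⌊(n-2)²/4⌋ + 1` if `n ≥ 2` and `0` if `n ≤ 1`. -/
theorem result (n : ℕ) :
    IsGreatest {k : ℕ | ∃ r : ℕ → Fin n → Fin n → Prop,
      IsMaximalChain (n.choose 2) r ∧ k = countAdjacencies (n.choose 2) r}
      (if 2 ≤ n then (n - 2) ^ 2 / 4 + 1 else 0) := by
  have hc : ∀ (T : ℕ) (r : ℕ → Fin n → Fin n → Prop),
      countAdjacencies T r = Pool.Agent.K9h50.FS.countSwitch T r := fun _ _ => rfl
  split_ifs with hn
  · have hup : ∀ r : ℕ → Fin n → Fin n → Prop, IsMaximalChain (n.choose 2) r →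
        countAdjacencies (n.choose 2) r ≤ (n - 2) ^ 2 / 4 + 1 := by
      intro r hr
      rw [hc]
      have := Pool.Agent.K9h50.FS.countSwitch_le hr (by rwa [Fintype.card_fin])
        (by rw [Fintype.card_fin])
      rwa [Fintype.card_fin] at this
    obtain ⟨r, hr, hle⟩ := Pool.Agent.K9h50.FS.exists_chain n hn
    refine ⟨⟨r, hr, ?_⟩, ?_⟩
    · rw [hc]
      have := hup r hr
      rw [hc] at this
      exact le_antisymm hle this
    · rintro k ⟨s, hs, rfl⟩
      exact hup s hs
  · have hT : n.choose 2 = 0 := Nat.choose_eq_zero_of_lt (by omega)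
    have h0 : ∀ r : ℕ → Fin n → Fin n → Prop, countAdjacencies (n.choose 2) r = 0 := by
      intro r
      rw [hT]
      unfold countAdjacencies
      simp
    have hsub : ∀ x y : Fin n, x = y := fun x y => Fin.ext (by have := x.2; have := y.2; omega)
    refine ⟨⟨fun _ x y => x = y, ?_, (h0 _).symm⟩, ?_⟩
    · refine ⟨fun i _ => ⟨fun _ => rfl, fun x y _ _ => hsub x y, fun x y z _ _ => hsub x z⟩,
        fun x y => Iff.rfl, fun i hi => ?_, fun x y => Or.inl (hsub x y)⟩
      rw [hT] at hi
      omega
    · rintro k ⟨s, hs, rfl⟩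
      rw [h0]

end Pool.Agent.Results.MP_eb30e1_co.MostAdjacencies
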